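import Pool.Agent.helper69.DH.SpecR

set_option autoImplicit false

open Filter Topology MeasureTheory
open scoped commutatorElement

namespace Pool.Agent.helper90.DH

open Pool.Agent.helper64.D2

theorem rCNT_dd (m : ℤ) (s t u : ℕ) (h1 : u ≤ t) (h2 : t ≤ s) : m / 2 ^ (s - t) / 2 ^ (t - u) = m / 2 ^ (s - u) := by
  rw [Int.ediv_ediv_of_nonneg (by positivity), ← pow_add]
  congr 2
  omega

theorem rCNT_div (m n : ℤ) (k : ℕ) : m / 2 ^ k = n ↔ n * 2 ^ k ≤ m ∧ m < (n + 1) * 2 ^ k := by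
  have hp : (0 : ℤ) < 2 ^ k := by positivity
  constructor
  · intro h
    subst h
    exact ⟨Int.ediv_mul_le m hp.ne', Int.lt_ediv_add_one_mul_self m hp⟩
  · rintro ⟨h1, h2⟩
    apply le_antisymm
    · exact Int.lt_add_one_iff.mp (Int.ediv_lt_of_lt_mul hp h2)
    · exact (Int.le_ediv_iff_mul_le hp).mpr h1

/-- the window of a near cell. -/
theorem rCNT_win (ell S1 s t : ℕ) (m n κ : ℤ) (r : ℝ) (h1 : ell ≤ S1) (h2 : S1 ≤ t) (h3 : t ≤ s)
    (hr : r + 1 ≤ 2 ^ (S1 - ell)) (hm : m / 2 ^ (s - ell) = κ) (hn : |2 ^ t * rlp s m - (n : ℝ)| ≤ r) :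
    n / 2 ^ (t - ell) = κ - 1 ∨ n / 2 ^ (t - ell) = κ ∨ n / 2 ^ (t - ell) = κ + 1 := by
  have hD : (0 : ℤ) < 2 ^ (t - ell) := by positivity
  have hDr : (0 : ℝ) < 2 ^ (t - ell) := by positivity
  have hst : (0 : ℝ) < 2 ^ (s - t) := by positivity
  have hrD : r + 1 ≤ (2 : ℝ) ^ (t - ell) := hr.trans (pow_le_pow_right₀ (by norm_num) (by omega))
  have e1 : (2 : ℝ) ^ (s - ell) = 2 ^ (t - ell) * 2 ^ (s - t) := by
    rw [← pow_add]; congr 1; omega
  have e2 : (2 : ℝ) ^ s = 2 ^ t * 2 ^ (s - t) := by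
    rw [← pow_add]; congr 1; omega
  rw [rCNT_div] at hm
  have m1 : (κ : ℝ) * 2 ^ (s - ell) ≤ m := by exact_mod_cast hm.1
  have m2 : (m : ℝ) < ((κ : ℝ) + 1) * 2 ^ (s - ell) := by exact_mod_cast hm.2
  have e3 : 2 ^ t * rlp s m = (m : ℝ) / 2 ^ (s - t) := by
    unfold rlp
    rw [e2]
    field_simp
  rw [e3, abs_le] at hn
  have q1 : (κ : ℝ) * 2 ^ (t - ell) ≤ (m : ℝ) / 2 ^ (s - t) := by
    rw [le_div_iff₀ hst, mul_assoc, ← e1]
    exact m1
  have q2 : (m : ℝ) / 2 ^ (s - t) < ((κ : ℝ) + 1) * 2 ^ (t - ell) := by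
    rw [div_lt_iff₀ hst, mul_assoc, ← e1]
    exact m2
  have n1 : (((κ - 1) * 2 ^ (t - ell) : ℤ) : ℝ) ≤ (n : ℝ) := by
    push_cast
    nlinarith
  have n2 : (n : ℝ) < (((κ + 2) * 2 ^ (t - ell) : ℤ) : ℝ) := by
    push_cast
    nlinarith
  have n1' : (κ - 1) * 2 ^ (t - ell) ≤ n := Int.cast_le.mp n1
  have n2' : n < (κ + 2) * 2 ^ (t - ell) := Int.cast_lt.mp n2
  have l1 : κ - 1 ≤ n / 2 ^ (t - ell) := (Int.le_ediv_iff_mul_le hD).mpr n1'
  have l2 : n / 2 ^ (t - ell) < κ + 2 := Int.ediv_lt_of_lt_mul hD n2'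
  omega

open Classical in
/-- the number of points near a cell. -/
theorem rCNT_num (s t : ℕ) (n : ℤ) (r : ℝ) (Q : Finset ℤ) (h3 : t ≤ s) (hr : 0 ≤ r) :
    ((Q.filter (fun m => |2 ^ t * rlp s m - (n : ℝ)| ≤ r)).card : ℝ) ≤ (2 * r + 1) * 2 ^ (s - t) := by
  have hst : (0 : ℝ) < 2 ^ (s - t) := by positivity
  have hst1 : (1 : ℝ) ≤ 2 ^ (s - t) := one_le_pow₀ (by norm_num)
  have e2 : (2 : ℝ) ^ s = 2 ^ t * 2 ^ (s - t) := by
    rw [← pow_add]; congr 1; omega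
  have hsub : Q.filter (fun m => |2 ^ t * rlp s m - (n : ℝ)| ≤ r) ⊆
      Finset.Icc ⌈((n : ℝ) - r) * 2 ^ (s - t)⌉ ⌊((n : ℝ) + r) * 2 ^ (s - t)⌋ := by
    intro m hm
    rw [Finset.mem_filter] at hm
    have e3 : 2 ^ t * rlp s m = (m : ℝ) / 2 ^ (s - t) := by
      unfold rlp
      rw [e2]
      field_simp
    have hn := hm.2
    rw [e3, abs_le] at hn
    rw [Finset.mem_Icc, Int.ceil_le, Int.le_floor]
    have q : (m : ℝ) = (m : ℝ) / 2 ^ (s - t) * 2 ^ (s - t) := by field_simp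
    constructor
    · rw [q]
      exact mul_le_mul_of_nonneg_right (by linarith [hn.1]) hst.le
    · rw [q]
      exact mul_le_mul_of_nonneg_right (by linarith [hn.2]) hst.le
  have h1 := Finset.card_le_card hsub
  rw [Int.card_Icc] at h1
  have h2 : ((⌊((n : ℝ) + r) * 2 ^ (s - t)⌋ + 1 - ⌈((n : ℝ) - r) * 2 ^ (s - t)⌉).toNat : ℝ) ≤ (2 * r + 1) * 2 ^ (s - t) := by
    by_cases h0 : 0 ≤ ⌊((n : ℝ) + r) * 2 ^ (s - t)⌋ + 1 - ⌈((n : ℝ) - r) * 2 ^ (s - t)⌉
    · have h4 : (((⌊((n : ℝ) + r) * 2 ^ (s - t)⌋ + 1 - ⌈((n : ℝ) - r) * 2 ^ (s - t)⌉).toNat : ℤ) : ℝ) =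
          ((⌊((n : ℝ) + r) * 2 ^ (s - t)⌋ + 1 - ⌈((n : ℝ) - r) * 2 ^ (s - t)⌉ : ℤ) : ℝ) := by
        rw [Int.toNat_of_nonneg h0]
      rw [Int.cast_natCast] at h4
      rw [h4]
      push_cast
      have h5 := Int.floor_le (((n : ℝ) + r) * 2 ^ (s - t))
      have h6 := Int.le_ceil (((n : ℝ) - r) * 2 ^ (s - t))
      nlinarith
    · have h4 : (⌊((n : ℝ) + r) * 2 ^ (s - t)⌋ + 1 - ⌈((n : ℝ) - r) * 2 ^ (s - t)⌉).toNat = 0 := by omega
      rw [h4]
      push_cast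
      positivity
  calc ((Q.filter (fun m => |2 ^ t * rlp s m - (n : ℝ)| ≤ r)).card : ℝ)
      ≤ ((⌊((n : ℝ) + r) * 2 ^ (s - t)⌋ + 1 - ⌈((n : ℝ) - r) * 2 ^ (s - t)⌉).toNat : ℝ) := by exact_mod_cast h1
    _ ≤ (2 * r + 1) * 2 ^ (s - t) := h2

open Classical in
theorem rCNT : rCNT_stmt := by
  intro ell S1 s A r κ Q h1 h2 hr0 hr hF hQ
  obtain ⟨hF1, hF2, hF3⟩ := hF
  let W : ℤ → Prop := fun w => w = κ - 1 ∨ w = κ ∨ w = κ + 1
  let A' : ℕ → Finset ℤ := fun t => (A t).filter (fun n => W (n / 2 ^ (t - ell)))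
  have hS1 : ∀ t n, n ∈ A t → S1 ≤ t := by
    intro t n hn
    by_contra hc
    rw [hF1 t (not_le.mp hc)] at hn
    exact absurd hn (Finset.notMem_empty n)
  -- first part
  have p1 : ∀ m ∈ Q, ((rAc A r s (rlp s m)).card : ℝ) ≤
      ∑ t ∈ Finset.range (s + 1), ∑ n ∈ A' t, (if |2 ^ t * rlp s m - (n : ℝ)| ≤ r then (1 : ℝ) else 0) := by
    intro m hm
    unfold rAc
    rw [Finset.card_filter]
    push_cast
    apply Finset.sum_le_sum
    intro t ht
    have hts : t ≤ s := by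
      rw [Finset.mem_range] at ht
      omega
    by_cases hex : ∃ n ∈ A t, |2 ^ t * rlp s m - (n : ℝ)| ≤ r
    · rw [if_pos hex]
      obtain ⟨n, hn, hn2⟩ := hex
      have hn' : n ∈ A' t := by
        rw [Finset.mem_filter]
        exact ⟨hn, rCNT_win ell S1 s t m n κ r h1 (hS1 t n hn) hts hr (hQ m hm) hn2⟩
      have h3 : (if |2 ^ t * rlp s m - (n : ℝ)| ≤ r then (1 : ℝ) else 0) ≤
          ∑ n ∈ A' t, (if |2 ^ t * rlp s m - (n : ℝ)| ≤ r then (1 : ℝ) else 0) :=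
        Finset.single_le_sum (f := fun n : ℤ => if |2 ^ t * rlp s m - (n : ℝ)| ≤ r then (1 : ℝ) else 0)
          (fun i _ => by split_ifs <;> norm_num) hn'
      rw [if_pos hn2] at h3
      exact h3
    · rw [if_neg hex]
      apply Finset.sum_nonneg
      intro i _
      split_ifs <;> norm_num
  have p2 : ∑ m ∈ Q, ((rAc A r s (rlp s m)).card : ℝ) ≤
      ∑ t ∈ Finset.range (s + 1), ∑ n ∈ A' t, (2 * r + 1) * 2 ^ (s - t) := by
    refine (Finset.sum_le_sum p1).trans ?_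
    rw [Finset.sum_comm]
    apply Finset.sum_le_sum
    intro t ht
    rw [Finset.sum_comm]
    apply Finset.sum_le_sum
    intro n hn
    have hts : t ≤ s := by
      rw [Finset.mem_range] at ht
      omega
    have h3 := rCNT_num s t n r Q hts hr0
    rw [Finset.card_filter] at h3
    push_cast at h3
    exact h3
  -- second part
  let J : Finset (Σ _ : ℕ, ℤ) := (Finset.range (s + 1)).sigma A'
  let B : (Σ _ : ℕ, ℤ) → Finset ℤ := fun p => Finset.Ico (p.2 * 2 ^ (s - p.1)) ((p.2 + 1) * 2 ^ (s - p.1))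
  have hB : ∀ (p : Σ _ : ℕ, ℤ) (m : ℤ), m ∈ B p ↔ m / 2 ^ (s - p.1) = p.2 := by
    intro p m
    rw [Finset.mem_Ico, rCNT_div]
  have hBc : ∀ p : Σ _ : ℕ, ℤ, ((B p).card : ℝ) = 2 ^ (s - p.1) := by
    intro p
    have h3 : (B p).card = 2 ^ (s - p.1) := by
      show (Finset.Ico (p.2 * 2 ^ (s - p.1)) ((p.2 + 1) * 2 ^ (s - p.1))).card = 2 ^ (s - p.1)
      rw [Int.card_Ico]
      have h4 : (p.2 + 1) * 2 ^ (s - p.1) - p.2 * 2 ^ (s - p.1) = ((2 ^ (s - p.1) : ℕ) : ℤ) := by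
        push_cast
        ring
      rw [h4, Int.toNat_natCast]
    rw [h3]
    push_cast
    rfl
  have hdisj : ∀ p ∈ J, ∀ p' ∈ J, p ≠ p' → Disjoint (B p) (B p') := by
    have key : ∀ p ∈ J, ∀ p' ∈ J, ∀ m, m ∈ B p → m ∈ B p' → ¬ p'.1 < p.1 := by
      intro p hp p' hp' m hm hm' hlt
      rw [Finset.mem_sigma, Finset.mem_range, Finset.mem_filter] at hp hp'
      rw [hB] at hm hm'
      have hps : p.1 ≤ s := by omega
      apply hF3 p.1 hps p'.1 hlt p.2 hp.2.1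
      rw [← hm, rCNT_dd m s p.1 p'.1 hlt.le hps, hm']
      exact hp'.2.1
    intro p hp p' hp' hne
    rw [Finset.disjoint_left]
    intro m hm hm'
    apply hne
    have h3 := key p hp p' hp' m hm hm'
    have h4 := key p' hp' p hp m hm' hm
    have h5 : p.1 = p'.1 := by omega
    rw [hB] at hm hm'
    have h6 : p.2 = p'.2 := by rw [← hm, ← hm', h5]
    exact Sigma.ext h5 (heq_of_eq h6)
  have hsub : J.biUnion B ⊆ (rRZ A s).filter (fun m => W (m / 2 ^ (s - ell))) := by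
    intro m hm
    rw [Finset.mem_biUnion] at hm
    obtain ⟨p, hp, hmp⟩ := hm
    rw [Finset.mem_sigma, Finset.mem_range, Finset.mem_filter] at hp
    have hps : p.1 ≤ s := by omega
    have hpS := hS1 p.1 p.2 hp.2.1
    rw [hB] at hmp
    rw [Finset.mem_filter]
    constructor
    · unfold rRZ
      rw [Finset.mem_filter]
      refine ⟨?_, p.1, hps, ?_⟩
      · have h3 := hF2 p.1 hps hp.2.1
        unfold rTg at h3 ⊢
        rw [Finset.mem_Ico] at h3 ⊢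
        rw [rCNT_div] at hmp
        have hpp : (0 : ℤ) < 2 ^ (s - p.1) := by positivity
        have e1 : (2 : ℤ) ^ s = 2 ^ p.1 * 2 ^ (s - p.1) := by
          rw [← pow_add]; congr 1; omega
        constructor
        · calc -(2 : ℤ) ^ s = (-2 ^ p.1) * 2 ^ (s - p.1) := by rw [e1]; ring
            _ ≤ p.2 * 2 ^ (s - p.1) := mul_le_mul_of_nonneg_right h3.1 hpp.le
            _ ≤ m := hmp.1
        · calc m < (p.2 + 1) * 2 ^ (s - p.1) := hmp.2
            _ ≤ (2 * 2 ^ p.1) * 2 ^ (s - p.1) := mul_le_mul_of_nonneg_right (by omega) hpp.le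
            _ = 2 * 2 ^ s := by rw [e1]; ring
      · rw [hmp]
        exact hp.2.1
    · rw [← rCNT_dd m s p.1 ell (by omega) hps, hmp]
      exact hp.2.2
  have p3 : (∑ t ∈ Finset.range (s + 1), ∑ n ∈ A' t, (2 : ℝ) ^ (s - t)) ≤
      rcw ell s (κ - 1) (rRZ A s) + rcw ell s κ (rRZ A s) + rcw ell s (κ + 1) (rRZ A s) := by
    have h3 : (∑ t ∈ Finset.range (s + 1), ∑ n ∈ A' t, (2 : ℝ) ^ (s - t)) = ((J.biUnion B).card : ℝ) := by
      rw [Finset.card_biUnion hdisj]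
      push_cast
      rw [Finset.sum_congr rfl (fun p _ => hBc p)]
      rw [Finset.sum_sigma]
    rw [h3]
    have h4 := Finset.card_le_card hsub
    have h5 : ((rRZ A s).filter (fun m => W (m / 2 ^ (s - ell)))).card ≤
        rcw ell s (κ - 1) (rRZ A s) + rcw ell s κ (rRZ A s) + rcw ell s (κ + 1) (rRZ A s) := by
      unfold rcw
      have h6 : (rRZ A s).filter (fun m => W (m / 2 ^ (s - ell))) ⊆
          ((rRZ A s).filter (fun m => m / 2 ^ (s - ell) = κ - 1) ∪ (rRZ A s).filter (fun m => m / 2 ^ (s - ell) = κ)) ∪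
            (rRZ A s).filter (fun m => m / 2 ^ (s - ell) = κ + 1) := by
        intro m hm
        rw [Finset.mem_filter] at hm
        rw [Finset.mem_union, Finset.mem_union, Finset.mem_filter, Finset.mem_filter, Finset.mem_filter]
        rcases hm.2 with h | h | h
        · exact Or.inl (Or.inl ⟨hm.1, h⟩)
        · exact Or.inl (Or.inr ⟨hm.1, h⟩)
        · exact Or.inr ⟨hm.1, h⟩
      exact (Finset.card_le_card h6).trans ((Finset.card_union_le _ _).trans (Nat.add_le_add_right (Finset.card_union_le _ _) _))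
    exact_mod_cast h4.trans h5
  refine p2.trans ?_
  have h3 : (∑ t ∈ Finset.range (s + 1), ∑ n ∈ A' t, (2 * r + 1) * 2 ^ (s - t)) =
      (2 * r + 1) * ∑ t ∈ Finset.range (s + 1), ∑ n ∈ A' t, (2 : ℝ) ^ (s - t) := by
    rw [Finset.mul_sum]
    apply Finset.sum_congr rfl
    intro t _
    rw [Finset.mul_sum]
  rw [h3]
  exact mul_le_mul_of_nonneg_left p3 (by linarith)

end Pool.Agent.helper90.DH
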