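import Pool.Agent.helper69.DH.SpecR

set_option autoImplicit false

open Filter Topology MeasureTheory
open scoped commutatorElement

namespace Pool.Agent.helper90.DH

open Pool.Agent.helper64.D2

theorem rTRF_in (A : ℕ → Finset ℤ) (r r' ρ : ℝ) (s t : ℕ) (z z' : ℝ) (hts : t ≤ s) (_hρ : 0 ≤ ρ)
    (hz : |z - z'| ≤ ρ / 2 ^ t) (hr : r + ρ ≤ r') (h : rin A r t z') : rin A r' s z := by
  obtain ⟨u, hu, n, hn, h1⟩ := h
  refine ⟨u, hu.trans hts, n, hn, ?_⟩
  have hp : (0 : ℝ) < 2 ^ u := by positivity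
  have hpt : (0 : ℝ) < 2 ^ t := by positivity
  have h2 : (2 : ℝ) ^ u * |z - z'| ≤ ρ := by
    calc (2 : ℝ) ^ u * |z - z'| ≤ 2 ^ t * (ρ / 2 ^ t) := by
          apply mul_le_mul (pow_le_pow_right₀ (by norm_num) hu) hz (abs_nonneg _) hpt.le
      _ = ρ := by field_simp
  have h3 : 2 ^ u * z - (n : ℝ) = (2 ^ u * z' - n) + 2 ^ u * (z - z') := by ring
  rw [h3]
  refine (abs_add_le _ _).trans ?_
  rw [abs_mul, abs_of_pos hp]
  linarith

open Classical in
theorem rTRF (hGEO : rGEO_stmt) : rTRF_stmt := by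
  intro P S hR s t A m m' ht hts hsS hd
  have hp : (0 : ℝ) < 2 ^ t := by positivity
  have hgeo := (hGEO P S hR).1
  have h5 : (3 + 1 + (3 + 1) / 2 ^ 27) / 2 ^ t ≤ (5 : ℝ) / 2 ^ t := by
    rw [div_le_div_iff_of_pos_right hp]
    norm_num
  refine ⟨?_, ?_, ?_⟩
  · unfold rhp
    apply Finset.card_le_card
    intro k hk
    rw [Finset.mem_filter] at hk ⊢
    refine ⟨hk.1, ?_⟩
    have h1 := (hgeo s t k m m' 3 ht hts hsS (Finset.mem_range.mp hk.1) (by norm_num) hd).2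
    refine rTRF_in A (rrh 0) (rrh 1) 5 s t _ _ hts (by norm_num) (h1.trans h5) ?_ hk.2
    unfold rrh
    norm_num
  · unfold rdg
    apply Finset.card_le_card
    intro k hk
    rw [Finset.mem_filter] at hk ⊢
    refine ⟨hk.1, ?_⟩
    have h1 := (hgeo s t k m m' 3 ht hts hsS (Finset.mem_range.mp hk.1) (by norm_num) hd).1
    refine rTRF_in A (rrk 0) (rrk 1) 5 s t _ _ hts (by norm_num) (h1.trans h5) ?_ hk.2
    unfold rrk
    norm_num
  · intro h
    refine rTRF_in A (rrh 0) (rrh 1) 3 s t _ _ hts (by norm_num) hd ?_ h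
    unfold rrh
    norm_num

end Pool.Agent.helper90.DH
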